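import Pool.Agent.NDR.StmtsC

set_option autoImplicit false

namespace Pool.Agent.NDR.H47

open Finset Pool.Agent.Helper6_Mono Pool.Agent.Helper30_Simp Pool.Agent.NDR

section gen

variable {σ : Type} {K : Type} [Field K]

/-- the exponent map (exponent `0` at `z`) -/
def rh (σ : Type) : (σ →₀ ℕ) →+ (Option σ → ℤ) where
  toFun α := fun v => v.elim 0 fun i => ((α i : ℕ) : ℤ)
  map_zero' := by funext v; cases v <;> simp
  map_add' := by intro a b; funext v; cases v <;> simp

/-- polynomials as Laurent polynomials -/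
noncomputable def ph : MvPolynomial σ K →+* AddMonoidAlgebra K (Option σ → ℤ) :=
  AddMonoidAlgebra.mapDomainRingHom K (rh σ)

lemma ph_monomial (α : σ →₀ ℕ) (a : K) :
    ph (MvPolynomial.monomial α a) = AddMonoidAlgebra.single (rh σ α) a := by
  unfold ph
  rw [← MvPolynomial.single_eq_monomial]
  simp

/-- the exponent of `z` -/
def dz : Option σ → ℤ := fun v => v.elim 1 fun _ => 0

lemma ex_eq (α : σ →₀ ℕ) : ex α = dz + rh σ α := by
  funext v
  cases v <;> simp [ex, dz, rh]

lemma ex_inj : Function.Injective (ex (σ := σ)) := by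
  intro α β h
  ext i
  have h1 := congrFun h (some i)
  simpa [ex] using h1

lemma hat_eq (G : MvPolynomial σ K) :
    hat G = Finsupp.mapDomain ex (AddMonoidAlgebra.coeff G) := rfl

lemma hat_ex (G : MvPolynomial σ K) (α : σ →₀ ℕ) : hat G (ex α) = MvPolynomial.coeff α G := by
  rw [hat_eq, Finsupp.mapDomain_apply ex_inj]
  rfl

lemma hat_supp [DecidableEq (Option σ → ℤ)] (G : MvPolynomial σ K) :
    (hat G).support = G.support.image ex := by
  rw [hat_eq, Finsupp.mapDomain_support_of_injective ex_inj]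
  rfl

lemma single_mul_of (a : Option σ → ℤ) (c : K) (h : (Option σ → ℤ) →₀ K) :
    AddMonoidAlgebra.single a c * AddMonoidAlgebra.ofCoeff h =
      ∑ m ∈ h.support, AddMonoidAlgebra.single (m + a) (c * h m) := by
  have h1 : AddMonoidAlgebra.ofCoeff h = ∑ m ∈ h.support, AddMonoidAlgebra.single m (h m) := by
    conv_lhs => rw [← Finsupp.sum_single h]
    unfold Finsupp.sum
    rw [AddMonoidAlgebra.ofCoeff_sum]
    rfl
  rw [h1, Finset.mul_sum]
  refine Finset.sum_congr rfl fun m _ => ?_
  rw [AddMonoidAlgebra.single_mul_single, add_comm]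

lemma thm_mul (f h : (Option σ → ℤ) →₀ K) (k : Option σ) :
    AddMonoidAlgebra.ofCoeff (thm f k h) =
      (∑ a ∈ f.support, AddMonoidAlgebra.single a (((a k : ℤ) : K) * f a)) *
        AddMonoidAlgebra.ofCoeff h := by
  unfold thm Finsupp.sum
  rw [AddMonoidAlgebra.ofCoeff_sum, Finset.sum_mul]
  refine Finset.sum_congr rfl fun a _ => ?_
  rw [AddMonoidAlgebra.ofCoeff_sum, single_mul_of]
  rfl

lemma ph_sum (G : MvPolynomial σ K) :
    ph G = ∑ α ∈ G.support, AddMonoidAlgebra.single (rh σ α) (MvPolynomial.coeff α G) := by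
  conv_lhs => rw [← MvPolynomial.support_sum_monomial_coeff G]
  rw [map_sum]
  exact Finset.sum_congr rfl fun α _ => ph_monomial _ _

lemma dn (G : MvPolynomial σ K) :
    ∑ a ∈ (hat G).support, AddMonoidAlgebra.single a (((a none : ℤ) : K) * hat G a) =
      AddMonoidAlgebra.single dz 1 * ph G := by
  classical
  rw [hat_supp, Finset.sum_image (fun _ _ _ _ h => ex_inj h), ph_sum, Finset.mul_sum]
  refine Finset.sum_congr rfl fun α _ => ?_
  rw [AddMonoidAlgebra.single_mul_single, ← ex_eq, hat_ex]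
  simp [ex]

lemma ds (G : MvPolynomial σ K) (l : σ) :
    ∑ a ∈ (hat G).support, AddMonoidAlgebra.single a (((a (some l) : ℤ) : K) * hat G a) =
      AddMonoidAlgebra.single dz 1 * ph (MvPolynomial.X l * MvPolynomial.pderiv l G) := by
  classical
  have h1 : MvPolynomial.X l * MvPolynomial.pderiv l G =
      ∑ α ∈ G.support, MvPolynomial.monomial α (((α l : ℕ) : K) * MvPolynomial.coeff α G) := by
    conv_lhs => rw [← MvPolynomial.support_sum_monomial_coeff G]
    rw [map_sum, Finset.mul_sum]
    refine Finset.sum_congr rfl fun α _ => ?_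
    rw [MvPolynomial.X_mul_pderiv_monomial, ← map_nsmul, nsmul_eq_mul]
  rw [hat_supp, Finset.sum_image (fun _ _ _ _ h => ex_inj h), h1, map_sum, Finset.mul_sum]
  refine Finset.sum_congr rfl fun α _ => ?_
  rw [ph_monomial, AddMonoidAlgebra.single_mul_single, ← ex_eq, hat_ex]
  simp [ex]

lemma unit_of [Fintype σ] (G A : MvPolynomial σ K) (B : σ → MvPolynomial σ K) (n : ℕ)
    (h : (∏ i, MvPolynomial.X i) ^ n = A * G + ∑ l, B l * MvPolynomial.pderiv l G) :
    Unit (hat G) := by
  classical
  -- exponents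
  let ex1 : Option σ → ℤ := fun v => v.elim 0 fun _ => 1
  let g : Option σ → (Option σ → ℤ) →₀ K := fun v => v.elim
    ((AddMonoidAlgebra.single (- dz - (n : ℤ) • ex1) 1 * ph A).coeff)
    (fun l => (AddMonoidAlgebra.single (- dz - (n : ℤ) • ex1 - rh σ (Finsupp.single l 1)) 1 *
      ph (B l)).coeff)
  refine ⟨g, ?_⟩
  apply AddMonoidAlgebra.ofCoeff_injective
  rw [AddMonoidAlgebra.ofCoeff_sum, Fintype.sum_option]
  have h1 : AddMonoidAlgebra.ofCoeff (thm (hat G) none (g none)) =
      AddMonoidAlgebra.single (- ((n : ℤ) • ex1)) 1 * ph (A * G) := by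
    rw [thm_mul, dn, map_mul]
    show AddMonoidAlgebra.single dz 1 * ph G *
      (AddMonoidAlgebra.single (- dz - (n : ℤ) • ex1) 1 * ph A) = _
    have h2 : (AddMonoidAlgebra.single dz 1 : AddMonoidAlgebra K (Option σ → ℤ)) *
        AddMonoidAlgebra.single (- dz - (n : ℤ) • ex1) 1 =
        AddMonoidAlgebra.single (- ((n : ℤ) • ex1)) 1 := by
      rw [AddMonoidAlgebra.single_mul_single, one_mul]
      congr 1
      abel
    rw [← h2]
    ring
  have h3 : ∀ l, AddMonoidAlgebra.ofCoeff (thm (hat G) (some l) (g (some l))) =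
      AddMonoidAlgebra.single (- ((n : ℤ) • ex1)) 1 * ph (B l * MvPolynomial.pderiv l G) := by
    intro l
    rw [thm_mul, ds, map_mul, map_mul]
    show AddMonoidAlgebra.single dz 1 * (ph (MvPolynomial.X l) * ph (MvPolynomial.pderiv l G)) *
      (AddMonoidAlgebra.single (- dz - (n : ℤ) • ex1 - rh σ (Finsupp.single l 1)) 1 *
        ph (B l)) = _
    have h2 : (AddMonoidAlgebra.single dz 1 : AddMonoidAlgebra K (Option σ → ℤ)) *
        AddMonoidAlgebra.single (- dz - (n : ℤ) • ex1 - rh σ (Finsupp.single l 1)) 1 *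
        ph (MvPolynomial.X l) =
        AddMonoidAlgebra.single (- ((n : ℤ) • ex1)) 1 := by
      have h4 : ph (MvPolynomial.X l : MvPolynomial σ K) =
          AddMonoidAlgebra.single (rh σ (Finsupp.single l 1)) 1 := ph_monomial _ _
      rw [h4, AddMonoidAlgebra.single_mul_single, AddMonoidAlgebra.single_mul_single, one_mul,
        one_mul]
      congr 1
      abel
    rw [← h2]
    ring
  rw [h1]
  simp only [h3]
  rw [← Finset.mul_sum, ← mul_add, ← map_sum, ← map_add, ← h, map_pow, map_prod]
  have h5 : ∏ i, ph (MvPolynomial.X i : MvPolynomial σ K) = AddMonoidAlgebra.single ex1 1 := by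
    have h6 : ∏ i, (MvPolynomial.X i : MvPolynomial σ K) =
        MvPolynomial.monomial (∑ i, Finsupp.single i 1) 1 := by
      rw [MvPolynomial.monomial_sum_one]
      rfl
    rw [← map_prod, h6, ph_monomial]
    congr 1
    funext v
    cases v <;> simp [rh, ex1, Finsupp.single_apply]
  rw [h5, AddMonoidAlgebra.single_pow, AddMonoidAlgebra.single_mul_single]
  simp

lemma coeff_prt [Fintype σ] [DecidableEq σ] (f : MvPolynomial σ K) (S : Finset (σ →₀ ℕ))
    (α : σ →₀ ℕ) :
    MvPolynomial.coeff α (prt f S) = if α ∈ S then MvPolynomial.coeff α f else 0 := by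
  unfold prt
  rw [MvPolynomial.coeff_sum]
  simp only [MvPolynomial.coeff_monomial]
  rw [Finset.sum_ite_eq']

/-- the face of `z f` -/
lemma fac_hat [Fintype σ] [DecidableEq σ] (f : MvPolynomial σ K) (u : Option σ → ℤ) :
    fac (hat f) u = hat (prt f (f.support.filter fun α =>
      ∑ i, u (some i) * ((α i : ℕ) : ℤ) = - u none)) := by
  classical
  have hpr : ∀ α : σ →₀ ℕ, pr u (ex α) = 0 ↔ ∑ i, u (some i) * ((α i : ℕ) : ℤ) = - u none := by
    intro α
    unfold pr
    rw [Fintype.sum_option]
    simp only [ex, mul_one, Int.cast_id, Int.cast_one]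
    constructor <;> intro h <;> linarith
  ext a
  by_cases ha : a ∈ Set.range (ex (σ := σ))
  · obtain ⟨α, rfl⟩ := ha
    rw [hat_ex, coeff_prt]
    unfold fac
    rw [Finsupp.filter_apply, hat_ex]
    by_cases h1 : pr u (ex α) = 0
    · rw [if_pos h1]
      by_cases h2 : α ∈ f.support
      · rw [if_pos]
        rw [Finset.mem_filter]
        exact ⟨h2, (hpr α).1 h1⟩
      · rw [MvPolynomial.notMem_support_iff.1 h2]
        simp
    · rw [if_neg h1, if_neg]
      rw [Finset.mem_filter]
      exact fun h => h1 ((hpr α).2 h.2)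
  · unfold fac
    rw [Finsupp.filter_apply, hat_eq, hat_eq, Finsupp.mapDomain_of_notMem_range _ _ ha,
      Finsupp.mapDomain_of_notMem_range _ _ ha]
    simp

end gen

lemma unit_map {σ : Type} [Fintype σ] {K₀ K : Type} [Field K₀] [Field K] (φ : K₀ →+* K)
    (G : MvPolynomial σ K₀) (hsm : TorusSmooth G) : Unit (hat (MvPolynomial.map φ G)) := by
  obtain ⟨n, hn⟩ := hsm
  rw [Set.singleton_union, Ideal.mem_span_insert] at hn
  obtain ⟨A, z, hz, hAz⟩ := hn
  rw [Ideal.mem_span_range_iff_exists_fun] at hz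
  obtain ⟨B, hB⟩ := hz
  rw [← hB] at hAz
  have h7 := congrArg (MvPolynomial.map φ) hAz
  rw [map_pow, map_prod, map_add, map_mul, map_sum] at h7
  simp only [MvPolynomial.map_X, map_mul] at h7
  refine unit_of _ (MvPolynomial.map φ A) (fun l => MvPolynomial.map φ (B l)) n ?_
  rw [h7]
  refine congrArg₂ (· + ·) rfl (Finset.sum_congr rfl fun l _ => ?_)
  rw [MvPolynomial.pderiv_map]

lemma cnx_aux (hCFR : CfrStmt) (hCNT : CntStmt) : CnxStmt := by
  classical
  intro σ _
  obtain ⟨K₀, fK, aK, c₀, δ, hδ0, hδ1⟩ := hCFR σ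
  refine ⟨AlgebraicClosure K₀, inferInstance, inferInstance, inferInstance,
    fun i => algebraMap K₀ (AlgebraicClosure K₀) (c₀ i), ?_⟩
  intro F I L hL hw
  have hinj : Function.Injective (algebraMap K₀ (AlgebraicClosure K₀)) :=
    (algebraMap K₀ (AlgebraicClosure K₀)).injective
  have hc0 : ∀ i, c₀ i ≠ 0 := by
    intro i h
    have h1 := hδ1 i i
    rw [h] at h1
    simp at h1
  refine ⟨fun i h => hc0 i (hinj (h.trans (map_zero _).symm)), ?_⟩
  -- the polynomial over the closure
  have hmap : fpr F I (fun i => algebraMap K₀ (AlgebraicClosure K₀) (c₀ i)) L =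
      MvPolynomial.map (algebraMap K₀ (AlgebraicClosure K₀)) (fpr F I c₀ L) := by
    unfold fpr
    rw [map_add, MvPolynomial.map_map, map_sum]
    congr 1
    refine Finset.sum_congr rfl fun i _ => ?_
    rw [map_mul, map_pow, MvPolynomial.map_C, MvPolynomial.map_X]
  have hcoe : ∀ α, MvPolynomial.coeff α (fpr F I c₀ L) =
      algebraMap ℂ K₀ (MvPolynomial.coeff α F) +
        ∑ i ∈ I, if Finsupp.single i L = α then c₀ i else 0 := by
    intro α
    unfold fpr
    rw [MvPolynomial.coeff_add, MvPolynomial.coeff_map, MvPolynomial.coeff_sum]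
    congr 1
    refine Finset.sum_congr rfl fun i _ => ?_
    rw [MvPolynomial.coeff_C_mul, MvPolynomial.coeff_X_pow]
    split_ifs <;> simp
  have hsupp : (fpr F I c₀ L).support = Mp F.support I L := by
    ext α
    rw [MvPolynomial.mem_support_iff, hcoe]
    unfold Mp
    rw [Finset.mem_union, Finset.mem_image, MvPolynomial.mem_support_iff]
    by_cases h1 : ∃ i ∈ I, Finsupp.single i L = α
    · refine ⟨fun _ => Or.inr h1, fun _ h2 => ?_⟩
      obtain ⟨i, hi, hi2⟩ := h1
      have h3 := congrArg (δ i) h2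
      rw [map_add, hδ0, map_sum, map_zero, zero_add] at h3
      rw [Finset.sum_eq_single i] at h3
      · rw [if_pos hi2, hδ1] at h3
        simp at h3
      · intro j _ hj
        split_ifs
        · rw [hδ1, if_neg (Ne.symm hj)]
        · simp
      · intro h; exact absurd hi h
    · have h4 : ∑ i ∈ I, (if Finsupp.single i L = α then c₀ i else 0) = 0 := by
        refine Finset.sum_eq_zero fun i hi => ?_
        rw [if_neg fun h => h1 ⟨i, hi, h⟩]
      rw [h4, add_zero]
      constructor
      · intro h5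
        left
        intro h6
        rw [h6, map_zero] at h5
        exact h5 rfl
      · rintro (h5 | h5)
        · exact fun h6 => h5 ((algebraMap ℂ K₀).injective (by rw [h6, map_zero]))
        · exact absurd h5 h1
  have hsupp2 : (fpr F I (fun i => algebraMap K₀ (AlgebraicClosure K₀) (c₀ i)) L).support =
      Mp F.support I L := by
    rw [hmap, MvPolynomial.support_map_of_injective _ hinj, hsupp]
  intro u hu hpos hex
  have hprex : ∀ α : σ →₀ ℕ, pr u (ex α) = u none + ∑ i, u (some i) * ((α i : ℕ) : ℤ) := by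
    intro α
    unfold pr
    rw [Fintype.sum_option]
    simp [ex]
  rw [fac_hat, hsupp2]
  have hprt : prt (fpr F I (fun i => algebraMap K₀ (AlgebraicClosure K₀) (c₀ i)) L)
      ((Mp F.support I L).filter fun α => ∑ i, u (some i) * ((α i : ℕ) : ℤ) = - u none) =
      MvPolynomial.map (algebraMap K₀ (AlgebraicClosure K₀)) (prt (fpr F I c₀ L)
      ((Mp F.support I L).filter fun α => ∑ i, u (some i) * ((α i : ℕ) : ℤ) = - u none)) := by
    rw [hmap]
    unfold prt
    rw [map_sum]
    refine Finset.sum_congr rfl fun α _ => ?_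
    rw [MvPolynomial.map_monomial, MvPolynomial.coeff_map]
  rw [hprt]
  have hsm := hCNT σ K₀ c₀ δ hδ0 hδ1 F I L hL hw (fun i => u (some i)) (- u none) ?_ ?_ ?_
  · exact unit_map _ _ hsm
  · intro i hi
    exact hu (some i) (by unfold ih; simpa using hi)
  · intro α hα
    have h8 := hpos (ex α) (by
      rw [hat_supp, hsupp2]
      exact Finset.mem_image_of_mem _ hα)
    rw [hprex] at h8
    linarith
  · obtain ⟨a, ha, ha2⟩ := hex
    rw [hat_supp, hsupp2, Finset.mem_image] at ha
    obtain ⟨α, hα, rfl⟩ := ha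
    rw [hprex] at ha2
    exact ⟨α, hα, by linarith⟩

/-- **CNX** -/
theorem cnx (hCFR : CfrStmt) (hCNT : CntStmt) : CnxStmt := cnx_aux hCFR hCNT

end Pool.Agent.NDR.H47
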