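import Pool.Agent.NDR.StmtsG

set_option autoImplicit false

namespace Pool.Agent.NDR.H47

open Finset Pool.Agent.NDR

section trs

lemma kd_map {T R R' : Type} [CommRing R] [CommRing R'] (F : R →+ R') (a : T → R) (a' : T → R')
    (S : Finset T) (h : ∀ j z, F (a j * z) = a' j * F z) (x : Finset T → R) (U : Finset T) :
    F (kd a S x U) = kd a' S (fun V => F (x V)) U := by
  classical
  unfold kd
  rw [map_sum]
  refine Finset.sum_congr rfl fun j _ => ?_
  rw [map_zsmul, h]

variable {ι K : Type} [Field K] [DecidableEq ι]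

lemma spz_single {K' : Type} [Field K'] [Algebra K K'] (r : ι) (t : K') (m : ι → ℤ) (c : K) :
    spz r t (AddMonoidAlgebra.single m c : Lr K ι) =
      AddMonoidAlgebra.single (Function.update m r 0) (t ^ (m r) * algebraMap K K' c) := by
  unfold spz
  rw [AddMonoidAlgebra.coeff_single, Finsupp.sum_single_index]
  · rfl
  · simp

lemma spz_coeff {K' : Type} [Field K'] [Algebra K K'] [DecidableEq (ι → ℤ)] (r : ι) (t : K') (h : Lr K ι) (m : ι → ℤ) :
    (spz r t h).coeff m = ∑ n ∈ h.coeff.support,
      if Function.update n r 0 = m then t ^ (n r) * algebraMap K K' (h.coeff n) else 0 := by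
  unfold spz
  rw [AddMonoidAlgebra.coeff_ofCoeff, Finsupp.sum, Finsupp.finsetSum_apply]
  refine Finset.sum_congr rfl fun n _ => ?_
  rw [Finsupp.single_apply]

lemma spz_supp {K' : Type} [Field K'] [Algebra K K'] (r : ι) (t : K') (h : Lr K ι) (m : ι → ℤ)
    (hm : (spz r t h).coeff m ≠ 0) : ∃ n, h.coeff n ≠ 0 ∧ Function.update n r 0 = m := by
  classical
  rw [spz_coeff] at hm
  obtain ⟨n, hn, hn2⟩ := Finset.exists_ne_zero_of_sum_ne_zero hm
  refine ⟨n, Finsupp.mem_support_iff.1 hn, ?_⟩
  by_contra h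
  rw [if_neg h] at hn2
  exact hn2 rfl

lemma spz_inj {F : Type} [Field F] [Algebra K F] [Algebra (Polynomial K) F]
    [IsScalarTower K (Polynomial K) F] (hinj : Function.Injective (algebraMap (Polynomial K) F))
    (r : ι) (h : Lr K ι) (h0 : spz r (algebraMap (Polynomial K) F Polynomial.X) h = 0) :
    h = 0 := by
  classical
  by_contra hne
  have hne2 : h.coeff ≠ 0 := fun h1 => hne (AddMonoidAlgebra.coeff_eq_zero.1 h1)
  obtain ⟨n, hn⟩ := Finsupp.support_nonempty_iff.2 hne2
  set t : F := algebraMap (Polynomial K) F Polynomial.X with ht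
  have ht0 : t ≠ 0 := by
    rw [ht]
    intro h1
    exact Polynomial.X_ne_zero (hinj (h1.trans (map_zero _).symm))
  let N : ℕ := ∑ k ∈ h.coeff.support, (k r).natAbs
  have hN : ∀ k ∈ h.coeff.support, 0 ≤ k r + (N : ℤ) := by
    intro k hk
    have h1 : (k r).natAbs ≤ N :=
      Finset.single_le_sum (f := fun k : ι → ℤ => (k r).natAbs) (fun _ _ => Nat.zero_le _) hk
    omega
  have h1 := congrArg (fun g : Lr F ι =>
    t ^ (N : ℤ) * g.coeff (Function.update n r 0)) h0
  simp only [AddMonoidAlgebra.coeff_zero, Finsupp.coe_zero, Pi.zero_apply, mul_zero] at h1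
  rw [spz_coeff, Finset.mul_sum] at h1
  have h2 : algebraMap (Polynomial K) F
      (∑ k ∈ h.coeff.support, if Function.update k r 0 = Function.update n r 0 then
        Polynomial.monomial (k r + (N : ℤ)).toNat (h.coeff k) else 0) = 0 := by
    rw [map_sum, ← h1]
    refine Finset.sum_congr rfl fun k hk => ?_
    split_ifs with h3
    · have h4 : t ^ (N : ℤ) * (t ^ (k r) * algebraMap K F (h.coeff k)) =
          t ^ (k r + (N : ℤ)).toNat * algebraMap K F (h.coeff k) := by
        rw [← mul_assoc, ← zpow_add₀ ht0, ← zpow_natCast, Int.toNat_of_nonneg (hN k hk), add_comm]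
      rw [h4, ← Polynomial.C_mul_X_pow_eq_monomial, map_mul, map_pow, ← ht, mul_comm,
        ← Polynomial.algebraMap_eq, ← IsScalarTower.algebraMap_apply]
    · simp
  have h5 := hinj (h2.trans (map_zero _).symm)
  have h6 := congrArg (fun p => Polynomial.coeff p (n r + (N : ℤ)).toNat) h5
  simp only [Polynomial.finsetSum_coeff, Polynomial.coeff_zero] at h6
  rw [Finset.sum_eq_single n] at h6
  · rw [if_pos rfl, Polynomial.coeff_monomial, if_pos rfl] at h6
    exact (Finsupp.mem_support_iff.1 hn) h6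
  · intro k hk hkn
    split_ifs with h7
    · rw [Polynomial.coeff_monomial, if_neg]
      intro h8
      apply hkn
      have h9 : k r = n r := by
        have := hN k hk
        have := hN n hn
        omega
      funext v
      by_cases hv : v = r
      · rw [hv, h9]
      · have := congrFun h7 v
        rwa [Function.update_of_ne hv, Function.update_of_ne hv] at this
    · simp
  · intro h7
    exact absurd hn h7

/-- coefficientwise additive map -/
noncomputable def pm {ι F K' : Type} [Field F] [Field K'] (ρ : K' →+ F) : Lr K' ι →+ Lr F ι where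
  toFun h := AddMonoidAlgebra.ofCoeff (h.coeff.mapRange ρ (map_zero ρ))
  map_zero' := by simp
  map_add' := by
    intro a b
    rw [AddMonoidAlgebra.coeff_add, Finsupp.mapRange_add (map_add ρ)]
    rfl

omit [DecidableEq ι] in
lemma pm_single {F K' : Type} [Field F] [Field K'] (ρ : K' →+ F) (m : ι → ℤ) (c : K') :
    pm ρ (AddMonoidAlgebra.single m c : Lr K' ι) = AddMonoidAlgebra.single m (ρ c) := by
  show AddMonoidAlgebra.ofCoeff ((AddMonoidAlgebra.single m c : Lr K' ι).coeff.mapRange ρ _) = _
  rw [AddMonoidAlgebra.coeff_single, Finsupp.mapRange_single]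
  rfl

omit [DecidableEq ι] in
lemma pm_coeff {F K' : Type} [Field F] [Field K'] (ρ : K' →+ F) (h : Lr K' ι) (m : ι → ℤ) :
    (pm ρ h).coeff m = ρ (h.coeff m) := by
  show (AddMonoidAlgebra.ofCoeff (h.coeff.mapRange ρ _)).coeff m = _
  rw [AddMonoidAlgebra.coeff_ofCoeff, Finsupp.mapRange_apply]

lemma pm_mul {F K' : Type} [Field F] [Field K'] [Algebra F K'] [Algebra K F] [Algebra K K']
    [IsScalarTower K F K'] (ρ : K' →ₗ[F] F) (r : ι) (t : F) (φ : Lr K ι →+* Lr K' ι)
    (hφ : ∀ h, φ h = spz r (algebraMap F K' t) h) (φ₁ : Lr K ι →+* Lr F ι)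
    (hφ₁ : ∀ h, φ₁ h = spz r t h) (h : Lr K ι) (g : Lr K' ι) :
    pm (ρ : K' →+ F) (φ h * g) = φ₁ h * pm (ρ : K' →+ F) g := by
  induction h using AddMonoidAlgebra.induction_linear with
  | zero => simp
  | add a b ha hb => rw [map_add, map_add, add_mul, add_mul, map_add, ha, hb]
  | single m c =>
    induction g using AddMonoidAlgebra.induction_linear with
    | zero => simp
    | add a b ha hb => rw [map_add, mul_add, mul_add, map_add, ha, hb]
    | single n d =>
      rw [hφ, hφ₁, spz_single, spz_single, pm_single, AddMonoidAlgebra.single_mul_single,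
        AddMonoidAlgebra.single_mul_single, pm_single]
      congr 1
      have h1 : (algebraMap F K' t) ^ (m r) * algebraMap K K' c * d =
          (t ^ (m r) * algebraMap K F c) • d := by
        rw [Algebra.smul_def, map_mul, map_zpow₀, ← IsScalarTower.algebraMap_apply]
      rw [h1]
      show ρ (_ • d) = _ * ρ d
      rw [map_smul, smul_eq_mul]

/-- evaluation of a polynomial at `x_r` -/
noncomputable def ev (K : Type) [Field K] (r : ι) : Polynomial K →+* Lr K ι :=
  Polynomial.eval₂RingHom AddMonoidAlgebra.singleZeroRingHom (xr K r)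

lemma ev_apply (r : ι) (q : Polynomial K) :
    ev K r q = q.sum fun n c => cst ι c * xr K r ^ n := by
  unfold ev
  rw [Polynomial.coe_eval₂RingHom, Polynomial.eval₂_eq_sum]
  rfl

lemma spz_ev {F : Type} [Field F] [Algebra K F] [Algebra (Polynomial K) F]
    [IsScalarTower K (Polynomial K) F] (r : ι) (φ₁ : Lr K ι →+* Lr F ι)
    (hφ₁ : ∀ h, φ₁ h = spz r (algebraMap (Polynomial K) F Polynomial.X) h) (q : Polynomial K) :
    φ₁ (ev K r q) = AddMonoidAlgebra.single 0 (algebraMap (Polynomial K) F q) := by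
  have h1 : (φ₁.comp (ev K r)) =
      (AddMonoidAlgebra.singleZeroRingHom : F →+* Lr F ι).comp (algebraMap (Polynomial K) F) := by
    refine Polynomial.ringHom_ext ?_ ?_
    · intro c
      show φ₁ (ev K r (Polynomial.C c)) = AddMonoidAlgebra.single 0 (algebraMap (Polynomial K) F (Polynomial.C c))
      have h2 : ev K r (Polynomial.C c) = AddMonoidAlgebra.single 0 c := by
        unfold ev
        rw [Polynomial.coe_eval₂RingHom, Polynomial.eval₂_C]
        rfl
      rw [h2, hφ₁, spz_single]
      congr 1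
      · funext v
        by_cases hv : v = r
        · subst hv; simp
        · simp [Function.update_of_ne hv]
      · rw [Pi.zero_apply, zpow_zero, one_mul, ← Polynomial.algebraMap_eq,
          ← IsScalarTower.algebraMap_apply]
    · show φ₁ (ev K r Polynomial.X) = AddMonoidAlgebra.single 0 (algebraMap (Polynomial K) F Polynomial.X)
      have h2 : ev K r (Polynomial.X) = AddMonoidAlgebra.single (Pi.single r 1) 1 := by
        unfold ev
        rw [Polynomial.coe_eval₂RingHom, Polynomial.eval₂_X]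
        rfl
      rw [h2, hφ₁, spz_single]
      congr 1
      · funext v
        by_cases hv : v = r
        · subst hv; simp
        · simp [Function.update_of_ne hv, Pi.single_eq_of_ne hv]
      · simp
  exact RingHom.congr_fun h1 q

lemma ev_mem (r : ι) (Q : Set (ι → ℤ)) (hQ : ∀ m ∈ Q, ∀ n : ℤ, Function.update m r n ∈ Q)
    (p : Polynomial K) (m : ι → ℤ) (hm : m ∈ Q) :
    ev K r p * AddMonoidAlgebra.single m 1 ∈ MS K Q := by
  classical
  rw [ev_apply, Polynomial.sum, Finset.sum_mul]
  refine AddSubgroup.sum_mem _ fun n _ => ?_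
  have h1 : cst ι (p.coeff n) * xr K r ^ n * AddMonoidAlgebra.single m 1 =
      AddMonoidAlgebra.single (Function.update m r (m r + n)) (p.coeff n) := by
    unfold cst xr
    rw [AddMonoidAlgebra.single_pow, AddMonoidAlgebra.single_mul_single,
      AddMonoidAlgebra.single_mul_single]
    congr 1
    · funext v
      by_cases hv : v = r
      · subst hv
        simp [add_comm]
      · simp [Function.update_of_ne hv, Pi.single_eq_of_ne hv]
    · simp
  rw [h1]
  intro k hk
  rw [AddMonoidAlgebra.coeff_single, Finsupp.single_apply] at hk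
  by_cases h2 : Function.update m r (m r + n) = k
  · rw [← h2]
    exact hQ m hm _
  · rw [if_neg h2] at hk
    exact absurd rfl hk

theorem trs_aux {T F K' : Type} [Field F] [Algebra K F] [Algebra (Polynomial K) F]
    [IsScalarTower K (Polynomial K) F] [IsFractionRing (Polynomial K) F] [Field K']
    [Algebra F K'] [Algebra K K'] [IsScalarTower K F K'] [Algebra (Polynomial K) K']
    [IsScalarTower (Polynomial K) F K'] (r : ι) (a : T → Lr K ι) (S : Finset T)
    (Q : Set (ι → ℤ)) (i : ℕ) (hQ : ∀ m ∈ Q, ∀ n : ℤ, Function.update m r n ∈ Q)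
    (hφe : ∃ φ : Lr K ι →+* Lr K' ι, ∀ h, φ h = spz r (algebraMap (Polynomial K) K' Polynomial.X) h)
    (hφ₁e : ∃ φ : Lr K ι →+* Lr F ι, ∀ h, φ h = spz r (algebraMap (Polynomial K) F Polynomial.X) h)
    (hex : ExP (fun j => spz r (algebraMap (Polynomial K) K' Polynomial.X) (a j))
      S (MS K' (Q ∩ {m | m r = 0})) ⊥ i)
    (x : Finset T → Lr K ι) (hx : Chn S (MS K Q) i x) (hkx : kd a S x = 0) :
    ∃ (q : Polynomial K) (y : Finset T → Lr K ι), q ≠ 0 ∧ Chn S (MS K Q) (i + 1) y ∧
      ∀ U, kd a S y U = (q.sum fun n c => cst ι c * xr K r ^ n) * x U := by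
  classical
  obtain ⟨φ, hφ⟩ := hφe
  obtain ⟨φ₁, hφ₁⟩ := hφ₁e
  have hinj : Function.Injective (algebraMap (Polynomial K) F) := IsFractionRing.injective _ _
  obtain ⟨ρ, hρ⟩ := (Algebra.linearMap F K').exists_leftInverse_of_injective
    (LinearMap.ker_eq_bot.2 (algebraMap F K').injective)
  have hρ1 : ρ 1 = 1 := by
    have h1 := LinearMap.congr_fun hρ 1
    simpa using h1
  have hφ2 : ∀ h, φ h = spz r (algebraMap F K' (algebraMap (Polynomial K) F Polynomial.X)) h := by
    intro h
    rw [hφ, ← IsScalarTower.algebraMap_apply]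
  have ha : (fun j => spz r (algebraMap (Polynomial K) K' Polynomial.X) (a j)) =
      fun j => φ (a j) := funext fun j => (hφ _).symm
  rw [ha] at hex
  have hx' : Chn S (MS K' (Q ∩ {m | m r = 0})) i (fun U => φ (x U)) := by
    intro U
    refine ⟨?_, ?_⟩
    · intro m hm
      have hm : (φ (x U)).coeff m ≠ 0 := hm
      rw [hφ] at hm
      obtain ⟨n, hn, rfl⟩ := spz_supp r _ _ _ hm
      exact ⟨hQ n ((hx U).1 n hn) 0, by simp⟩
    · intro h
      have h : φ (x U) ≠ 0 := h
      exact (hx U).2 (fun h0 => h (by rw [h0, map_zero]))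
  have hcyc : ∀ U, kd (fun j => φ (a j)) S (fun U => φ (x U)) U ∈
      (⊥ : AddSubgroup (Lr K' ι)) := by
    intro U
    have h1 := kd_map (φ : Lr K ι →+ Lr K' ι) a (fun j => φ (a j)) S
      (fun j z => map_mul φ _ _) x U
    rw [hkx] at h1
    rw [AddSubgroup.mem_bot]
    exact h1.symm.trans (map_zero φ)
  obtain ⟨y', hy', hxy⟩ := hex (fun U => φ (x U)) hx' hcyc
  obtain ⟨Y, hYdef⟩ : ∃ Y : Finset T → Lr F ι, ∀ U, Y U = pm (ρ : K' →+ F) (y' U) :=
    ⟨_, fun _ => rfl⟩
  have hY : ∀ U, kd (fun j => φ₁ (a j)) S Y U = φ₁ (x U) := by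
    intro U
    have h1 := kd_map (pm (ρ : K' →+ F) : Lr K' ι →+ Lr F ι) (fun j => φ (a j))
      (fun j => φ₁ (a j)) S (fun j z => pm_mul ρ r _ φ hφ2 φ₁ hφ₁ (a j) z) y' U
    have h2 : kd (fun j => φ (a j)) S y' U = φ (x U) :=
      (sub_eq_zero.1 (AddSubgroup.mem_bot.1 (hxy U))).symm
    rw [h2] at h1
    have h3 : pm (ρ : K' →+ F) (φ (x U)) = φ₁ (x U) := by
      have h4 := pm_mul ρ r _ φ hφ2 φ₁ hφ₁ (x U) 1
      rw [mul_one] at h4
      rw [h4]
      have h5 : pm (ρ : K' →+ F) (1 : Lr K' ι) = 1 := by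
        rw [AddMonoidAlgebra.one_def, pm_single]
        show AddMonoidAlgebra.single 0 (ρ 1) = _
        rw [hρ1]
        rfl
      rw [h5, mul_one]
    have h6 : Y = fun V => pm (ρ : K' →+ F) (y' V) := funext hYdef
    rw [h6, ← h1, h3]
  have hYs : ∀ U m, (Y U).coeff m ≠ 0 → m ∈ Q ∧ m r = 0 := by
    intro U m hm
    rw [hYdef, pm_coeff] at hm
    exact (hy' U).1 m (fun h => hm (by rw [h, map_zero]))
  have hYU : ∀ U m, (Y U).coeff m ≠ 0 → U ⊆ S ∧ U.card = i + 1 := by
    intro U m hm
    rw [hYdef, pm_coeff] at hm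
    refine (hy' U).2 (fun h => hm ?_)
    rw [h]
    simp
  obtain ⟨b, hb⟩ := IsLocalization.exist_integer_multiples_of_finset
    (nonZeroDivisors (Polynomial K))
    (S.powerset.biUnion fun U => (Y U).coeff.support.image fun m => (Y U).coeff m)
  have hp : ∀ U m, ∃ p : Polynomial K,
      algebraMap (Polynomial K) F p = algebraMap (Polynomial K) F b * (Y U).coeff m := by
    intro U m
    by_cases hm : (Y U).coeff m = 0
    · exact ⟨0, by rw [hm, map_zero, mul_zero]⟩
    · obtain ⟨p, hp⟩ := hb ((Y U).coeff m) (Finset.mem_biUnion.2 ⟨U,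
        Finset.mem_powerset.2 (hYU U m hm).1, Finset.mem_image.2 ⟨m,
          Finsupp.mem_support_iff.2 hm, rfl⟩⟩)
      exact ⟨p, by rw [hp, Algebra.smul_def]⟩
  choose p hp using hp
  have hy1 : ∀ U, φ₁ (∑ m ∈ (Y U).coeff.support, ev K r (p U m) *
      AddMonoidAlgebra.single m 1) =
      AddMonoidAlgebra.single 0 (algebraMap (Polynomial K) F b) * Y U := by
    intro U
    have h1 : Y U = ∑ m ∈ (Y U).coeff.support, AddMonoidAlgebra.single m ((Y U).coeff m) := by
      apply AddMonoidAlgebra.coeff_injective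
      rw [AddMonoidAlgebra.coeff_sum]
      exact (Finsupp.sum_single _).symm
    rw [map_sum]
    conv_rhs => rw [h1]
    rw [Finset.mul_sum]
    refine Finset.sum_congr rfl fun m hm => ?_
    have h2 := hYs U m (Finsupp.mem_support_iff.1 hm)
    rw [map_mul, spz_ev r φ₁ hφ₁, hφ₁, spz_single, hp, AddMonoidAlgebra.single_mul_single,
      AddMonoidAlgebra.single_mul_single]
    congr 1
    · funext v
      by_cases hv : v = r
      · subst hv; simp [h2.2]
      · simp [Function.update_of_ne hv]
    · rw [h2.2]; simp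
  refine ⟨b, fun U => ∑ m ∈ (Y U).coeff.support, ev K r (p U m) *
      AddMonoidAlgebra.single m 1, nonZeroDivisors.coe_ne_zero b, ?_, ?_⟩
  · intro U
    refine ⟨AddSubgroup.sum_mem _ fun m hm =>
      ev_mem r Q hQ _ _ (hYs U m (Finsupp.mem_support_iff.1 hm)).1, ?_⟩
    intro h
    obtain ⟨m, hm, -⟩ := Finset.exists_ne_zero_of_sum_ne_zero h
    exact hYU U m (Finsupp.mem_support_iff.1 hm)
  · intro U
    rw [← ev_apply]
    rw [← sub_eq_zero]
    apply spz_inj hinj r
    rw [← hφ₁, map_sub, map_mul, spz_ev r φ₁ hφ₁]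
    have h1 := kd_map (φ₁ : Lr K ι →+ Lr F ι) a (fun j => φ₁ (a j)) S
      (fun j z => map_mul φ₁ _ _) (fun U => ∑ m ∈ (Y U).coeff.support, ev K r (p U m) *
      AddMonoidAlgebra.single m 1) U
    have h2 := kd_map (AddMonoidHom.mulLeft
      (AddMonoidAlgebra.single 0 (algebraMap (Polynomial K) F b) : Lr F ι))
      (fun j => φ₁ (a j)) (fun j => φ₁ (a j)) S
      (fun j z => by
        rw [AddMonoidHom.coe_mulLeft]
        ring) Y U
    rw [hY] at h2
    have h3 : (fun V => (φ₁ : Lr K ι →+ Lr F ι) (∑ m ∈ (Y V).coeff.support, ev K r (p V m) *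
      AddMonoidAlgebra.single m 1)) = fun V => (AddMonoidHom.mulLeft
      (AddMonoidAlgebra.single 0 (algebraMap (Polynomial K) F b) : Lr F ι)) (Y V) :=
      funext fun V => hy1 V
    rw [h3, ← h2] at h1
    exact sub_eq_zero.2 h1

end trs

/-- **TRS** -/
theorem trs (hSPH : SphStmt) : TrsStmt := by
  intro T ι K _ _ r a S Q i hQ hex x hx hkx
  refine trs_aux (F := FractionRing (Polynomial K))
    (K' := AlgebraicClosure (FractionRing (Polynomial K))) r a S Q i hQ ?_ ?_ hex x hx hkx
  · refine ((hSPH ι K r).1 _ _ ?_).1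
    intro h
    have h1 : algebraMap (FractionRing (Polynomial K)) (AlgebraicClosure (FractionRing (Polynomial K)))
        (algebraMap (Polynomial K) (FractionRing (Polynomial K)) Polynomial.X) = 0 := by
      rw [← IsScalarTower.algebraMap_apply, h]
    rw [map_eq_zero] at h1
    exact Polynomial.X_ne_zero ((IsFractionRing.injective (Polynomial K)
      (FractionRing (Polynomial K))) (h1.trans (map_zero _).symm))
  · refine ((hSPH ι K r).1 _ _ ?_).1
    intro h
    exact Polynomial.X_ne_zero ((IsFractionRing.injective (Polynomial K)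
      (FractionRing (Polynomial K))) (h.trans (map_zero _).symm))

end Pool.Agent.NDR.H47
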